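import Pool.Agent.Helper96.TS.D44.Base

/-!
# The finite part for 4 labels and 4 colours: the head 0111
-/

set_option autoImplicit false
set_option maxRecDepth 100000

namespace Pool.Agent.Helper96.TS.D44.H2

open Pool.Agent.Helper96.TS Pool.Agent.Helper96.TS.D44
open Pool.Agent.Helper28.SO
open Helper13.TS (SpreadOut)

/-- the head -/
def lam : Fin 4 → ℕ := ![0, 1, 1, 1]

def oth : List ℕ := [266241, 262209, 4161]

def tab : List ℕ := [0x100000003084000000001000000000040001040040000001000000000041001001041000040000000000040040000040040000001000000000041001001041000040000000000040040000040040000001000000000041001001041000000000000040000000000000000000041000000040040041,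
  0x1002103000000040000000001040040041040000040000000000040040001040001000000000000041000000041000000001000000000041001001041000000040000000001040040041040001000000000001001000001001000000000040000000000000000000001001000040000041001,
  0x20000000040c3000000040000000001040040041040000001000000000041001001041000000040000000001040040041040000040000000000040040001040001000000000000041000000041000040000000000001040000001040000000001000000000000000000000001040001000000041040]

def a0 : ℕ := 0x100000001659579e79e79e79e7de75d75d79e71d75e79e79e79e7de79d75d79e75c75d79e79e7de79e79e75e79d79d75d75e79e79e79e7de79d75d79e75c75d79e79e7de79e79e75e79d79d75d75e79e79f79e79e79d79e75e75d75d79e79e79e79e79e79e79e7de79e79e75d75d75e79d79d71d75d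

def m1 : ℕ := 0x20800000000000000000000000000000000000000000000000000000000000000000000000000000000000000000000000000000000000000000000000000000000000000000000000000000000000000000000000000000820820820820820820820820820820820820820820820820820

/-- the kinds of the tests at a leaf -/
def S1 : List ℕ := [0, 201, 202]

def keys : List ℕ := [0xc4000040]

theorem hoth : ∀ p ∈ PP 3 4, p ≠ lam → phi p ≤ phi lam →
    anyR (Nat.beq (code p)) oth = true := by
  decide +kernel

theorem htab : tab = (ftab.filter fun x => anyR (Nat.beq x.1) oth).map Prod.snd := by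
  decide +kernel

theorem ha0 : a0 = num ts (K5 3) (code lam) + OF ts := by
  decide +kernel

theorem hm1 : m1 = MS ts (fun κ => anyR (Nat.beq κ) S1) := by
  decide +kernel

theorem hprs : ∀ zs ∈ prs, anyR (Nat.beq (kd zs)) S1 = false := by
  decide +kernel

theorem hen : enr m0 (leafR m1 sh ms keys) 3 tab a0 = true := by
  decide +kernel

theorem main (w : Fin 4 → Fin 4 → ℕ) (hw : ∀ k, ∑ c, w k c = 3) (hs : SpreadOut 4 w) (hw0 : w 0 = lam)
    (hi : Function.Injective w) (hphi : ∀ k, phi (w k) ≤ phi (w 0))
    (hst : ∀ c c', c ≤ c' → w 0 c = w 0 c' → ∑ k, w k c ≤ ∑ k, w k c')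
    (hwL : (List.ofFn fun k : Fin 3 => w k.succ).Sublist (PP 3 4)) :
    (∃ zs ∈ prs, SpreadOut 4 (fun k => mergeV zs.1 zs.2 (w k))) ∨ ∑ k, 2 ^ k5 (4 - 1) (code (w k)) ∈ keys := by
  refine head_gen (m := 3) (d := 3) (by norm_num) (by norm_num) He Hd thE thD prs ex ftab hHe hHd hthE hthD hmc hftab
    oth lam tab a0 m0 m1 sh ms keys (Nat.beq 0) (fun κ => anyR (Nat.beq κ) S1) ?_ hprs htab ha0 hm0 hm1 hsh hms hen
    w hw hs hw0 ?_ hwL ?_ ?_
  · intro κ hκ
    rw [← Nat.eq_of_beq_eq_true hκ]
    rfl
  · intro k
    refine hoth (w k.succ) ((mem_PP _).2 (hw _)) ?_ ?_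
    · intro h
      rw [← hw0] at h
      exact absurd (hi h) (Fin.succ_ne_zero k)
    · rw [← hw0]
      exact hphi _
  · intro t ht
    simp only [ex, List.mem_cons, List.not_mem_nil, or_false] at ht
    rcases ht with rfl | rfl | rfl
    · exact difT_bound (by norm_num) w hw 0 (by norm_num)
    · exact difT_bound (by norm_num) w hw 1 (by norm_num)
    · exact difT_bound (by norm_num) w hw 2 (by norm_num)
  · intro t ht hS
    simp only [ex, List.mem_cons, List.not_mem_nil, or_false] at ht
    rcases ht with rfl | rfl | rfl
    · exact absurd hS (by decide)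
    · refine difT_ok (by norm_num) w hw 1 (by norm_num) (hst _ _ ?_ ?_)
      · decide
      · rw [hw0]
        rfl
    · refine difT_ok (by norm_num) w hw 2 (by norm_num) (hst _ _ ?_ ?_)
      · decide
      · rw [hw0]
        rfl

end Pool.Agent.Helper96.TS.D44.H2
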