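import Pool.Agent.Helper96.TS.D44.Base

/-!
# The finite part for 4 labels and 4 colours: regular families
-/

set_option autoImplicit false
set_option maxRecDepth 100000

namespace Pool.Agent.Helper96.TS.D44

open Pool.Agent.Helper96.TS
open Pool.Agent.Helper28.SO
open Helper13.TS (SpreadOut)

/-- key, weights, minimisers -/
def reg0 : List (ℕ × ℕ × ℕ) := [(0x8000000000000008009, 0x1000000040000001040000, 0x922090006d8)]

theorem reg0_ok : reg0.all (fun x => rgC 4 4 x.1 x.2.1 x.2.2) = true := by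
  decide +kernel

theorem reg0_crt : ∀ x ∈ reg0, Crt 4 4 x.1 := fun x hx =>
  crt_of_rgC (by norm_num) (by norm_num) (List.all_eq_true.1 reg0_ok x hx)

/-- key, weights, minimisers -/
def reg1 : List (ℕ × ℕ × ℕ) := [(0x80a000040, 0x10c10410030c10400c00c3, 0x4a0026c2640)]

theorem reg1_ok : reg1.all (fun x => rgC 4 4 x.1 x.2.1 x.2.2) = true := by
  decide +kernel

theorem reg1_crt : ∀ x ∈ reg1, Crt 4 4 x.1 := fun x hx =>
  crt_of_rgC (by norm_num) (by norm_num) (List.all_eq_true.1 reg1_ok x hx)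

/-- key, weights, minimisers -/
def reg2 : List (ℕ × ℕ × ℕ) := [(0xc4000040, 0x1041041040041001040041, 0xa60a602608)]

theorem reg2_ok : reg2.all (fun x => rgC 4 4 x.1 x.2.1 x.2.2) = true := by
  decide +kernel

theorem reg2_crt : ∀ x ∈ reg2, Crt 4 4 x.1 := fun x hx =>
  crt_of_rgC (by norm_num) (by norm_num) (List.all_eq_true.1 reg2_ok x hx)

end Pool.Agent.Helper96.TS.D44
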