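import Pool.Agent.Helper96.TS.D44.Base

/-!
# The finite part for 4 labels and 4 colours: tables of trees
-/

set_option autoImplicit false
set_option maxRecDepth 100000

namespace Pool.Agent.Helper96.TS.D44

open Pool.Agent.Helper96.TS
open Pool.Agent.Helper28.SO
open Helper13.TS (SpreadOut)

/-- the matchings -/
def grp : List (List (List ℕ)) := [[[]],
  [[0]],
  [[1]],
  [[2]],
  [[3]],
  [[4]],
  [[5]],
  [[6]],
  [[7]],
  [[8]],
  [[9]],
  [[10]],
  [[11]],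
  [[12]],
  [[13]],
  [[14]],
  [[15]],
  [[0, 5], [1, 4]],
  [[0, 6], [2, 4]],
  [[1, 6], [2, 5]],
  [[0, 7], [3, 4]],
  [[1, 7], [3, 5]],
  [[2, 7], [3, 6]],
  [[0, 9], [1, 8]],
  [[0, 10], [2, 8]],
  [[1, 10], [2, 9]],
  [[0, 11], [3, 8]],
  [[1, 11], [3, 9]],
  [[2, 11], [3, 10]],
  [[0, 13], [1, 12]],
  [[0, 14], [2, 12]],
  [[1, 14], [2, 13]],
  [[0, 15], [3, 12]],
  [[1, 15], [3, 13]],
  [[2, 15], [3, 14]],
  [[4, 9], [5, 8]],
  [[4, 10], [6, 8]],
  [[5, 10], [6, 9]],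
  [[4, 11], [7, 8]],
  [[5, 11], [7, 9]],
  [[6, 11], [7, 10]],
  [[4, 13], [5, 12]],
  [[4, 14], [6, 12]],
  [[5, 14], [6, 13]],
  [[4, 15], [7, 12]],
  [[5, 15], [7, 13]],
  [[6, 15], [7, 14]],
  [[8, 13], [9, 12]],
  [[8, 14], [10, 12]],
  [[9, 14], [10, 13]],
  [[8, 15], [11, 12]],
  [[9, 15], [11, 13]],
  [[10, 15], [11, 14]],
  [[0, 5, 10], [0, 6, 9], [1, 4, 10], [1, 6, 8], [2, 4, 9], [2, 5, 8]],
  [[0, 5, 11], [0, 7, 9], [1, 4, 11], [1, 7, 8], [3, 4, 9], [3, 5, 8]],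
  [[0, 6, 11], [0, 7, 10], [2, 4, 11], [2, 7, 8], [3, 4, 10], [3, 6, 8]],
  [[1, 6, 11], [1, 7, 10], [2, 5, 11], [2, 7, 9], [3, 5, 10], [3, 6, 9]],
  [[0, 5, 14], [0, 6, 13], [1, 4, 14], [1, 6, 12], [2, 4, 13], [2, 5, 12]],
  [[0, 5, 15], [0, 7, 13], [1, 4, 15], [1, 7, 12], [3, 4, 13], [3, 5, 12]],
  [[0, 6, 15], [0, 7, 14], [2, 4, 15], [2, 7, 12], [3, 4, 14], [3, 6, 12]],
  [[1, 6, 15], [1, 7, 14], [2, 5, 15], [2, 7, 13], [3, 5, 14], [3, 6, 13]],
  [[0, 9, 14], [0, 10, 13], [1, 8, 14], [1, 10, 12], [2, 8, 13], [2, 9, 12]],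
  [[0, 9, 15], [0, 11, 13], [1, 8, 15], [1, 11, 12], [3, 8, 13], [3, 9, 12]],
  [[0, 10, 15], [0, 11, 14], [2, 8, 15], [2, 11, 12], [3, 8, 14], [3, 10, 12]],
  [[1, 10, 15], [1, 11, 14], [2, 9, 15], [2, 11, 13], [3, 9, 14], [3, 10, 13]],
  [[4, 9, 14], [4, 10, 13], [5, 8, 14], [5, 10, 12], [6, 8, 13], [6, 9, 12]],
  [[4, 9, 15], [4, 11, 13], [5, 8, 15], [5, 11, 12], [7, 8, 13], [7, 9, 12]],
  [[4, 10, 15], [4, 11, 14], [6, 8, 15], [6, 11, 12], [7, 8, 14], [7, 10, 12]],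
  [[5, 10, 15], [5, 11, 14], [6, 9, 15], [6, 11, 13], [7, 9, 14], [7, 10, 13]],
  [[0, 5, 10, 15], [0, 5, 11, 14], [0, 6, 9, 15], [0, 6, 11, 13], [0, 7, 9, 14], [0, 7, 10, 13], [1, 4, 10, 15], [1, 4, 11, 14], [1, 6, 8, 15], [1, 6, 11, 12], [1, 7, 8, 14], [1, 7, 10, 12], [2, 4, 9, 15], [2, 4, 11, 13], [2, 5, 8, 15], [2, 5, 11, 12], [2, 7, 8, 13], [2, 7, 9, 12], [3, 4, 9, 14], [3, 4, 10, 13], [3, 5, 8, 14], [3, 5, 10, 12], [3, 6, 8, 13], [3, 6, 9, 12]]]

def dgl : List ℕ := [0x1030c3082082082041041041041041,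
  0x420410c20810411030c2082041041,
  0x41081042043081042043081103081,
  0x410420410810830410810830420c4]

def pcs : List ℕ := [786432, 528384, 270336, 12288, 524352, 266304, 8256, 262272, 4224, 192, 524289, 266241, 8193, 262209, 4161, 129, 262146, 4098, 66, 3]

def one : ℕ := 0x41041041041041041041041041041

theorem hone : one = OO 20 := by
  decide +kernel

theorem hlen : (PP 3 4).length = 20 := by
  decide +kernel

theorem hgrp : ∀ x ∈ groupsOf (3 + 1) 4, x ∈ [] :: grp := by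
  decide +kernel

theorem hdgl : dgl = (List.range 4).map fun c => pk 0 ((List.range 20).map fun j => if h : c < 4 then
    ((PP 3 4).getD j 0) ⟨c, h⟩ + 1 else 0) := by
  decide +kernel

theorem hpcs : pcs = (PP 3 4).map code := by
  decide +kernel

/-- key, positions, trees -/
def tb0 : List (ℕ × List ℕ × ℕ) := []

theorem tb0_ok : tb0.all (fun x => taC (3 + 1) 4 20 120 one ([] :: grp) dgl pcs x.1 x.2.1 x.2.2) = true := by
  decide +kernel

theorem tb0_crt : ∀ x ∈ tb0, Crt 4 4 x.1 := fun x hx =>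
  crt_of_taC (by norm_num) hlen hone ([] :: grp) hgrp dgl pcs hdgl hpcs x.2.1 x.2.2 (List.all_eq_true.1 tb0_ok x hx)

/-- key, positions, trees -/
def tb1 : List (ℕ × List ℕ × ℕ) := [(0x4000002000880, [18, 15, 1, 2], 0x41000040041001041000000000000000000000000041000000000000000000041041040041000041041041041041041041041041000000000000000000000000000000041000040000001040000001040041040041041041041041041041041000041040041000000041000000000000041000041041041041041041041041041000000041001000041001000040000000000040000000040000000000000041041041041000000000000000000041001000040001000000001000001041041001041041001041041041041001000041040000041040001000000041000000000000000000000000000)]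

theorem tb1_ok : tb1.all (fun x => taC (3 + 1) 4 20 120 one ([] :: grp) dgl pcs x.1 x.2.1 x.2.2) = true := by
  decide +kernel

theorem tb1_crt : ∀ x ∈ tb1, Crt 4 4 x.1 := fun x hx =>
  crt_of_taC (by norm_num) hlen hone ([] :: grp) hgrp dgl pcs hdgl hpcs x.2.1 x.2.2 (List.all_eq_true.1 tb1_ok x hx)

/-- key, positions, trees -/
def tb2 : List (ℕ × List ℕ × ℕ) := []

theorem tb2_ok : tb2.all (fun x => taC (3 + 1) 4 20 120 one ([] :: grp) dgl pcs x.1 x.2.1 x.2.2) = true := by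
  decide +kernel

theorem tb2_crt : ∀ x ∈ tb2, Crt 4 4 x.1 := fun x hx =>
  crt_of_taC (by norm_num) hlen hone ([] :: grp) hgrp dgl pcs hdgl hpcs x.2.1 x.2.2 (List.all_eq_true.1 tb2_ok x hx)

end Pool.Agent.Helper96.TS.D44
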