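import Pool.Agent.Helper96.TS.D44.H0
import Pool.Agent.Helper96.TS.D44.H1
import Pool.Agent.Helper96.TS.D44.H2
import Pool.Agent.Helper96.TS.D44.Reg
import Pool.Agent.Helper96.TS.D44.Tab

/-!
# The finite part for 4 labels and 4 colours: the theorem
-/

set_option autoImplicit false
set_option maxRecDepth 100000

namespace Pool.Agent.Helper96.TS.D44

open Pool.Agent.Helper96.TS
open Pool.Agent.Helper28.SO
open Helper13.TS (SpreadOut)

theorem keys0 : H0.keys = reg0.map (fun x => x.1) ++ tb0.map (fun x => x.1) := by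
  decide +kernel

theorem crt0 : ∀ K ∈ H0.keys, Crt 4 4 K := by
  intro K hK
  rw [keys0, List.mem_append, List.mem_map, List.mem_map] at hK
  rcases hK with ⟨x, hx, rfl⟩ | ⟨x, hx, rfl⟩
  · exact reg0_crt x hx
  · exact tb0_crt x hx

theorem keys1 : H1.keys = reg1.map (fun x => x.1) ++ tb1.map (fun x => x.1) := by
  decide +kernel

theorem crt1 : ∀ K ∈ H1.keys, Crt 4 4 K := by
  intro K hK
  rw [keys1, List.mem_append, List.mem_map, List.mem_map] at hK
  rcases hK with ⟨x, hx, rfl⟩ | ⟨x, hx, rfl⟩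
  · exact reg1_crt x hx
  · exact tb1_crt x hx

theorem keys2 : H2.keys = reg2.map (fun x => x.1) ++ tb2.map (fun x => x.1) := by
  decide +kernel

theorem crt2 : ∀ K ∈ H2.keys, Crt 4 4 K := by
  intro K hK
  rw [keys2, List.mem_append, List.mem_map, List.mem_map] at hK
  rcases hK with ⟨x, hx, rfl⟩ | ⟨x, hx, rfl⟩
  · exact reg2_crt x hx
  · exact tb2_crt x hx

theorem heads : ∀ p ∈ PP 3 4, (∀ i j : Fin 4, i ≤ j → p i ≤ p j) → p = H0.lam ∨ p = H1.lam ∨ p = H2.lam := by
  decide +kernel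

/-- **4 labels, 4 colours.** -/
theorem main (v : Fin 4 → Fin 4 → ℕ) (hv : ∀ k, ∑ c, v k c = 3) (hs : SpreadOut 4 v) : TRealized 4 4 v := by
  obtain ⟨w, ρ, hw, hsw, hi, hT, hsum, hmono, hst, hphi, hwL⟩ := normal_form (m := 3) v hv hs
  apply hT
  have key : (∃ zs ∈ prs, SpreadOut 4 (fun k => mergeV zs.1 zs.2 (w k))) ∨
      Crt (3 + 1) 4 (∑ k, 2 ^ k5 (4 - 1) (code (w k))) := by
    rcases heads (w 0) ((mem_PP _).2 (hw 0)) (fun i j hij => hmono hij) with h | h | h
    · exact (H0.main w hw hsw h hi hphi hst hwL).imp id (crt0 _)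
    · exact (H1.main w hw hsw h hi hphi hst hwL).imp id (crt1 _)
    · exact (H2.main w hw hsw h hi hphi hst hwL).imp id (crt2 _)
  rcases key with ⟨zs, -, h⟩ | h
  · refine TRealized.merge (by norm_num) (by norm_num) zs.1 zs.2 _ ?_
    obtain ⟨T, hT, hTv⟩ := Helper13.TS.treeFam3 (by norm_num) (fun k => mergeV zs.1 zs.2 (w k))
      (fun k => by rw [sum_mergeV']; exact hw k) h
    exact ⟨T, hT, fun k => by rw [sum_mergeV']; exact hw k, hTv⟩
  · exact tRealized_of_crt h hnd w hw hi rfl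

end Pool.Agent.Helper96.TS.D44
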